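import Pool.Agent.Helper37.KDB.Extra

/-! Project KDB, piece D17: the candidates and the stages. -/

set_option autoImplicit false

namespace KDB.I.D17

open MeasureTheory KDB
open scoped ENNReal

variable (p : Par)

private theorem tau_succ' (k : ℕ) : p.tau (k + 1) = p.L * p.tau k := by
  unfold Par.tau
  have : k + 1 + p.q = (k + p.q) + 1 := by ring
  rw [this, pow_succ]
  ring

private theorem tau_pos' (hp : p.Ok) (k : ℕ) : 0 < p.tau k := by
  unfold Par.tau
  have h1 := hp.hH
  have h2 := hp.hL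
  positivity

private theorem W_le_tau (hp : p.Ok) (k : ℕ) : p.W k ≤ p.tau k := by
  unfold Par.W Par.tau
  have h2 := hp.hL
  exact Nat.mul_le_mul_left _ (Nat.pow_le_pow_right (by omega) (by omega))

/-- properties of the candidates -/
theorem cand_spec (hp : p.Ok) (t i a : ℕ) (ht : MM * p.tau (i + 1) ≤ t) (ha : 1 ≤ a)
    (ha' : a ≤ 49) :
    p.cand t i a % p.tau (i + 1) = p.L / 2 * p.tau i ∧
      t - MM * p.tau (i + 1) + p.tau i ≤ p.cand t i a ∧
      p.cand t i a + p.W i ≤ t - MM * p.tau i ∧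
      p.cand t i a + p.tau (i + 1) = p.cand t i (a + 1) := by
  have hT : p.tau (i + 1) = p.L * p.tau i := tau_succ' p i
  have hpos : 0 < p.tau i := tau_pos' p hp i
  have hpos' : 0 < p.tau (i + 1) := tau_pos' p hp (i + 1)
  have hW : p.W i ≤ p.tau i := W_le_tau p hp i
  have hL := hp.hL
  have hbig : 1000 * p.tau i ≤ p.tau (i + 1) := by
    rw [hT]; exact Nat.mul_le_mul_right _ hL
  have hc : p.L / 2 * p.tau i < p.tau (i + 1) := by
    rw [hT]; exact Nat.mul_lt_mul_of_pos_right (by omega) hpos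
  unfold Par.cand
  unfold MM at *
  simp only []
  generalize hx : t - 50 * p.tau (i + 1) + p.tau i = x
  generalize p.L / 2 * p.tau i = cc at *
  generalize p.tau (i + 1) = T at *
  generalize p.tau i = τ at *
  have hxm : x % T < T := Nat.mod_lt _ hpos'
  have hxd : T * (x / T) + x % T = x := Nat.div_add_mod x T
  have hr : (cc + T - x % T) % T < T := Nat.mod_lt _ hpos'
  have hrd : T * ((cc + T - x % T) / T) + (cc + T - x % T) % T = cc + T - x % T :=
    Nat.div_add_mod _ T
  refine ⟨?_, ?_, ?_, ?_⟩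
  · -- residue
    have key : x + (cc + T - x % T) % T + (a - 1) * T + T * ((cc + T - x % T) / T) =
        cc + T * (x / T + 1 + (a - 1)) := by
      have e1 : x + (cc + T - x % T) % T + T * ((cc + T - x % T) / T) =
          T * (x / T) + cc + T := by omega
      calc x + (cc + T - x % T) % T + (a - 1) * T + T * ((cc + T - x % T) / T)
          = (x + (cc + T - x % T) % T + T * ((cc + T - x % T) / T)) + (a - 1) * T := by ring
        _ = (T * (x / T) + cc + T) + (a - 1) * T := by rw [e1]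
        _ = cc + T * (x / T + 1 + (a - 1)) := by ring
    have h1 : (x + (cc + T - x % T) % T + (a - 1) * T + T * ((cc + T - x % T) / T)) % T =
        (x + (cc + T - x % T) % T + (a - 1) * T) % T := Nat.add_mul_mod_self_left _ _ _
    have h2 : (cc + T * (x / T + 1 + (a - 1))) % T = cc % T := Nat.add_mul_mod_self_left _ _ _
    rw [← h1, key, h2, Nat.mod_eq_of_lt hc]
  · exact le_trans (Nat.le_add_right _ _) (Nat.le_add_right _ _)
  · have h48 : (a - 1) * T ≤ 48 * T := Nat.mul_le_mul_right _ (by omega)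
    omega
  · have : (a + 1 - 1) * T = (a - 1) * T + T := by
      obtain ⟨b, rfl⟩ : ∃ b, a = b + 1 := ⟨a - 1, by omega⟩
      simp only [Nat.add_sub_cancel]
      ring
    rw [this]
    ring

/-- bounds of the start of a stage -/
private theorem Sx_bounds (hp : p.Ok) (t : ℕ) (c : ℕ → ℕ) (hc : ∀ i, c i ≤ 49) (i : ℕ) :
    (t < MM * p.tau (i + 1) → p.Sx t c i = 0) ∧ t - MM * p.tau (i + 1) ≤ p.Sx t c i ∧
      p.Sx t c i ≤ t - MM * p.tau i := by
  have hmono : p.tau i ≤ p.tau (i + 1) := by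
    rw [tau_succ' p i]
    have := hp.hL
    exact Nat.le_mul_of_pos_left _ (by omega)
  by_cases h1 : t < MM * p.tau (i + 1)
  · have hS : p.Sx t c i = 0 := by unfold Par.Sx; rw [if_pos h1]
    refine ⟨fun _ => hS, ?_, ?_⟩
    · omega
    · rw [hS]; exact Nat.zero_le _
  · refine ⟨fun h => absurd h h1, ?_⟩
    by_cases h2 : c i = 0
    · have hS : p.Sx t c i = t - MM * p.tau i := by unfold Par.Sx; rw [if_neg h1, if_pos h2]
      rw [hS]
      refine ⟨?_, le_rfl⟩
      have : MM * p.tau i ≤ MM * p.tau (i + 1) := Nat.mul_le_mul_left _ hmono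
      omega
    · have hS : p.Sx t c i = p.cand t i (c i) + p.W i := by
        unfold Par.Sx; rw [if_neg h1, if_neg h2]
      have hcs := cand_spec p hp t i (c i) (by omega) (by omega) (hc i)
      rw [hS]
      exact ⟨by omega, hcs.2.2.1⟩

/-- the stages are ordered and not too long -/
theorem stage_spec (hp : p.Ok) (t : ℕ) (ht : t ≤ p.tau p.n) (c : ℕ → ℕ) (hc : ∀ i, c i ≤ 49)
    (i : ℕ) (hi : i < p.n) :
    p.Sx t c i ≤ p.Ex t c i ∧ p.Ex t c i ≤ p.Sx t c i + MM * p.L * p.tau i ∧
      p.Ex t c i ≤ t ∧ (t < MM * p.tau (i + 1) → p.Sx t c i = 0) ∧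
      t - MM * p.tau (i + 1) ≤ p.Sx t c i := by
  obtain ⟨h1, h2, h3⟩ := Sx_bounds p hp t c hc i
  have hE : t - MM * p.tau i ≤ p.Ex t c i ∧ p.Ex t c i ≤ t := by
    unfold Par.Ex
    by_cases h0 : i = 0
    · rw [if_pos h0]
      exact ⟨Nat.sub_le _ _, le_rfl⟩
    · rw [if_neg h0]
      obtain ⟨_, k2, k3⟩ := Sx_bounds p hp t c hc (i - 1)
      have e : i - 1 + 1 = i := by omega
      rw [e] at k2
      exact ⟨k2, le_trans k3 (Nat.sub_le _ _)⟩
  have hT : MM * p.L * p.tau i = MM * p.tau (i + 1) := by rw [tau_succ' p i, mul_assoc]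
  refine ⟨le_trans h3 hE.1, ?_, hE.2, h1, h2⟩
  rw [hT]
  have := hE.2
  omega

end KDB.I.D17
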