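import Pool.Agent.Helper37.KDB.Extra

/-! Project KDB, piece P10: mass of the rings of a level in an interval. -/

set_option autoImplicit false

namespace KDB.I.P10

open MeasureTheory KDB
open scoped ENNReal

variable (p : Par)

private theorem tau_pos' (hp : p.Ok) (k : ℕ) : 0 < p.tau k := by
  unfold Par.tau
  have h1 := hp.hH
  have h2 := hp.hL
  positivity

private theorem W_pos' (hp : p.Ok) (k : ℕ) : 0 < p.W k := by
  unfold Par.W
  have h1 := hp.hH
  have h2 := hp.hL
  positivity

private theorem trap_le (u : ℝ) : Par.trap u ≤ 1 := by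
  unfold Par.trap
  exact max_le zero_le_one (min_le_left _ _)

private theorem trap_nonneg (u : ℝ) : 0 ≤ Par.trap u := le_max_left _ _

private theorem chi_nonneg (k j : ℕ) : 0 ≤ p.chi k j := by
  unfold Par.chi
  split_ifs
  · exact trap_nonneg _
  · exact trap_nonneg _
  · exact le_rfl

private theorem chi_le (k j : ℕ) :
    p.chi k j ≤ (if p.inA k j then (1 : ℝ) else 0) + (if p.inB k j then (1 : ℝ) else 0) := by
  unfold Par.chi
  split_ifs
  · have := trap_le (((p.ph k j : ℝ) - (p.L / 2 - 1 : ℕ) * p.tau k) / p.W k)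
    linarith
  · have := trap_le (((p.ph k j : ℝ) - (p.L / 2 - 1 : ℕ) * p.tau k) / p.W k)
    linarith
  · have := trap_le (((p.ph k j : ℝ) - (p.L / 2 : ℕ) * p.tau k) / p.W k)
    linarith
  · norm_num

/-- the steps of one period with phase in a window of length `w` -/
private theorem card_win (T m s w : ℕ) (P : ℕ → Prop) [DecidablePred P]
    (hP : ∀ j, P j → s ≤ j % T ∧ j % T < s + w) :
    ((Finset.Ico (m * T) ((m + 1) * T)).filter P).card ≤ w := by
  have hsub : (Finset.Ico (m * T) ((m + 1) * T)).filter P ⊆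
      Finset.Ico (m * T + s) (m * T + s + w) := by
    intro j hj
    rw [Finset.mem_filter, Finset.mem_Ico] at hj
    obtain ⟨⟨h1, h2⟩, h3⟩ := hj
    obtain ⟨r, rfl⟩ : ∃ r, j = r + m * T := ⟨j - m * T, by omega⟩
    have h4 : r < T := by
      have : (m + 1) * T = m * T + T := by ring
      omega
    have h5 := hP _ h3
    rw [Nat.add_mul_mod_self_right, Nat.mod_eq_of_lt h4] at h5
    rw [Finset.mem_Ico]
    omega
  calc _ ≤ (Finset.Ico (m * T + s) (m * T + s + w)).card := Finset.card_le_card hsub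
    _ = w := by rw [Nat.card_Ico]; omega

private theorem period_mass (hp : p.Ok) (k m : ℕ) :
    ∑ j ∈ Finset.Ico (m * p.tau (k + 1)) ((m + 1) * p.tau (k + 1)), p.pring k j ≤ 2 * p.mu := by
  have hW : (0 : ℝ) < p.W k := by exact_mod_cast W_pos' p hp k
  have hmu := hp.hmu
  have h1 : ∑ j ∈ Finset.Ico (m * p.tau (k + 1)) ((m + 1) * p.tau (k + 1)), p.pring k j ≤
      ∑ j ∈ Finset.Ico (m * p.tau (k + 1)) ((m + 1) * p.tau (k + 1)),
        (p.mu / p.W k) * ((if p.inA k j then (1 : ℝ) else 0) +
          (if p.inB k j then (1 : ℝ) else 0)) := by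
    refine Finset.sum_le_sum fun j _ => ?_
    unfold Par.pring
    have := chi_le p k j
    calc p.mu * p.chi k j / p.W k = (p.mu / p.W k) * p.chi k j := by ring
      _ ≤ _ := mul_le_mul_of_nonneg_left this (by positivity)
  refine le_trans h1 ?_
  rw [← Finset.mul_sum, Finset.sum_add_distrib, ← Finset.sum_filter, ← Finset.sum_filter,
    Finset.sum_const, Finset.sum_const, nsmul_eq_mul, nsmul_eq_mul, mul_one, mul_one]
  have hA : (((Finset.Ico (m * p.tau (k + 1)) ((m + 1) * p.tau (k + 1))).filter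
      (fun j => p.inA k j)).card : ℝ) ≤ p.W k := by
    exact_mod_cast card_win (p.tau (k + 1)) m ((p.L / 2 - 1) * p.tau k) (p.W k)
      (fun j => p.inA k j) (fun j hj => hj)
  have hB : (((Finset.Ico (m * p.tau (k + 1)) ((m + 1) * p.tau (k + 1))).filter
      (fun j => p.inB k j)).card : ℝ) ≤ p.W k := by
    exact_mod_cast card_win (p.tau (k + 1)) m (p.L / 2 * p.tau k) (p.W k)
      (fun j => p.inB k j) (fun j hj => hj)
  calc p.mu / p.W k * _ ≤ p.mu / p.W k * (p.W k + p.W k) :=
        mul_le_mul_of_nonneg_left (add_le_add hA hB) (by positivity)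
    _ = 2 * p.mu := by field_simp; ring

private theorem periods_mass (hp : p.Ok) (k m N : ℕ) :
    ∑ j ∈ Finset.Ico (m * p.tau (k + 1)) ((m + N) * p.tau (k + 1)), p.pring k j ≤
      2 * p.mu * N := by
  induction N with
  | zero => simp
  | succ N ih =>
    have h1 : m * p.tau (k + 1) ≤ (m + N) * p.tau (k + 1) :=
      Nat.mul_le_mul_right _ (by omega)
    have h2 : (m + N) * p.tau (k + 1) ≤ (m + (N + 1)) * p.tau (k + 1) :=
      Nat.mul_le_mul_right _ (by omega)
    rw [← Finset.sum_Ico_consecutive _ h1 h2]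
    have h3 := period_mass p hp k (m + N)
    rw [show m + (N + 1) = m + N + 1 by ring]
    push_cast
    linarith

/-- mass of the rings of level `k` in an interval -/
theorem ring_mass (hp : p.Ok) (k a c : ℕ) :
    ∑ j ∈ Finset.Ico a c, p.pring k j ≤
      2 * p.mu * (((c - a : ℕ) : ℝ) / p.tau (k + 1) + 2) := by
  have hT : 0 < p.tau (k + 1) := tau_pos' p hp (k + 1)
  have hmu := hp.hmu
  have hnn : ∀ j, 0 ≤ p.pring k j := by
    intro j
    unfold Par.pring
    have := chi_nonneg p k j
    positivity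
  have hsub : Finset.Ico a c ⊆ Finset.Ico (a / p.tau (k + 1) * p.tau (k + 1))
      ((a / p.tau (k + 1) + ((c - a) / p.tau (k + 1) + 2)) * p.tau (k + 1)) := by
    refine Finset.Ico_subset_Ico ?_ ?_
    · exact Nat.div_mul_le_self _ _
    · have e1 : a < (a / p.tau (k + 1) + 1) * p.tau (k + 1) := by
        have := Nat.lt_div_mul_add hT (a := a)
        linarith
      have e2 : c - a < ((c - a) / p.tau (k + 1) + 1) * p.tau (k + 1) := by
        have := Nat.lt_div_mul_add hT (a := c - a)
        linarith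
      have e3 : (a / p.tau (k + 1) + ((c - a) / p.tau (k + 1) + 2)) * p.tau (k + 1) =
          (a / p.tau (k + 1) + 1) * p.tau (k + 1) +
            ((c - a) / p.tau (k + 1) + 1) * p.tau (k + 1) := by ring
      rw [e3]
      omega
  calc ∑ j ∈ Finset.Ico a c, p.pring k j
      ≤ ∑ j ∈ Finset.Ico (a / p.tau (k + 1) * p.tau (k + 1))
        ((a / p.tau (k + 1) + ((c - a) / p.tau (k + 1) + 2)) * p.tau (k + 1)), p.pring k j :=
        Finset.sum_le_sum_of_subset_of_nonneg hsub (fun j _ _ => hnn j)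
    _ ≤ 2 * p.mu * (((c - a) / p.tau (k + 1) + 2 : ℕ) : ℝ) := periods_mass p hp k _ _
    _ ≤ 2 * p.mu * (((c - a : ℕ) : ℝ) / p.tau (k + 1) + 2) := by
        have : (((c - a) / p.tau (k + 1) : ℕ) : ℝ) ≤ ((c - a : ℕ) : ℝ) / p.tau (k + 1) :=
          Nat.cast_div_le
        refine mul_le_mul_of_nonneg_left ?_ (by positivity)
        push_cast
        linarith

end KDB.I.P10
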